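import Pool.Agent.H.MP_c90f74_nt.UV.Exc

/-!
# UW/Defs: arithmetic progressions `x + D (j + 1)`

The primes dividing `D` are left out. `badd`: from `UV.badw` for `D H` integers. `goodd`: from `UV.goodw`.
`sumPD`: at most `log_2 D + 1` primes divide `D`, each of those of `(y, z]` contributes at most `1/y`.
-/

set_option autoImplicit false

namespace Pool.Agent.H.MP_c90f74_nt.UW

open Finset

/-- The primes of `PP y z N` which do not divide `D`. -/
noncomputable def PD (y z N D : ℕ) : Finset ℕ := (SF.PP y z N).filter (fun p => ¬ p ∣ D)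

open Classical in
/-- The `k ∈ W`, `2^k < n`, such that no `p ∈ PD y z N D` divides `n - 2^k`. -/
noncomputable def KD (W : Finset ℕ) (y z N D n : ℕ) : Finset ℕ :=
  W.filter (fun k => 2 ^ k < n ∧ ∀ p ∈ PD y z N D, ¬ p ∣ n - 2 ^ k)

open Classical in
theorem badd (x H D z : ℕ) (hx : 1 ≤ x) (hD : 1 ≤ D) (hDH : D * H ≤ x) (hz : 2 * z ≤ x) :
    ((range H).filter (fun j => ∃ k : ℕ, 2 ^ k < x + D * (j + 1) ∧
      x + D * (j + 1) - 2 ^ k ≤ z)).card ≤ 2 * z := by
  refine le_trans ?_ (UV.badw x (D * H) z hx hDH hz)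
  refine Finset.card_le_card_of_injOn (fun j => D * (j + 1) - 1) ?_ ?_
  · intro j hj
    rw [Finset.mem_coe, mem_filter, mem_range] at hj
    obtain ⟨h1, h2⟩ := hj
    have h3 : 1 ≤ D * (j + 1) := Nat.mul_pos hD (by omega)
    have h4 : D * (j + 1) ≤ D * H := Nat.mul_le_mul_left D h1
    show D * (j + 1) - 1 ∈ _
    generalize D * (j + 1) = m at h2 h3 h4
    have h5 : x + 1 + (m - 1) = x + m := by omega
    rw [Finset.mem_coe, mem_filter, mem_range, h5]
    exact ⟨by omega, h2⟩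
  · intro i _ j _ hij
    have h1 : D * (i + 1) - 1 = D * (j + 1) - 1 := hij
    have h3 : 1 ≤ D * (i + 1) := Nat.mul_pos hD (by omega)
    have h4 : 1 ≤ D * (j + 1) := Nat.mul_pos hD (by omega)
    have h5 : D * (i + 1) = D * (j + 1) := by
      generalize D * (i + 1) = m at h1 h3
      generalize D * (j + 1) = m' at h1 h4
      omega
    have h6 := Nat.eq_of_mul_eq_mul_left hD h5
    omega

theorem goodd (W : Finset ℕ) (y z N D n : ℕ) (hn : ¬ ∃ k : ℕ, 2 ^ k < n ∧ n - 2 ^ k ≤ z) :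
    UV.RW W n ⊆ KD W y z N D n := by
  refine (UV.goodw W y z N n hn).trans fun k hk => ?_
  unfold UV.KW at hk
  unfold KD PD
  rw [mem_filter] at hk ⊢
  exact ⟨hk.1, hk.2.1, fun p hp => hk.2.2 p (mem_filter.1 hp).1⟩

private theorem PD_card (D : ℕ) (hD : 1 ≤ D) : D.primeFactors.card ≤ Nat.log 2 D + 1 := by
  have h1 : 2 ^ D.primeFactors.card ≤ ∏ p ∈ D.primeFactors, p :=
    Finset.pow_card_le_prod _ _ _ fun p hp => (Nat.prime_of_mem_primeFactors hp).two_le
  have h2 : ∏ p ∈ D.primeFactors, p ≤ D :=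
    Nat.le_of_dvd hD (Nat.prod_primeFactors_dvd D)
  have h3 : 2 ^ D.primeFactors.card < 2 ^ (Nat.log 2 D + 1) :=
    lt_of_le_of_lt (h1.trans h2) (Nat.lt_pow_succ_log_self (by norm_num) D)
  exact ((Nat.pow_lt_pow_iff_right (by norm_num)).1 h3).le

theorem sumPD1 (y z N D : ℕ) (hD : 1 ≤ D) (hDy : Nat.log 2 D + 1 ≤ y) :
    (∑ p ∈ SF.PP y z N, 1 / (p : ℝ)) - 1 ≤ ∑ p ∈ PD y z N D, 1 / (p : ℝ) := by
  classical
  have hsplit := Finset.sum_filter_add_sum_filter_not (SF.PP y z N) (fun p => ¬ p ∣ D)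
    (fun p : ℕ => 1 / (p : ℝ))
  have hy0 : (0 : ℝ) < y := by
    have : 0 < y := by omega
    exact_mod_cast this
  have hle : ∑ p ∈ (SF.PP y z N).filter (fun p => ¬ ¬ p ∣ D), 1 / (p : ℝ) ≤ 1 := by
    have h1 : ∀ p ∈ (SF.PP y z N).filter (fun p => ¬ ¬ p ∣ D), 1 / (p : ℝ) ≤ 1 / (y : ℝ) := by
      intro p hp
      have h2 := (mem_filter.1 hp).1
      unfold SF.PP at h2
      rw [mem_filter, mem_Ioc] at h2
      have h3 : (y : ℝ) ≤ p := by exact_mod_cast h2.1.1.le
      exact one_div_le_one_div_of_le hy0 h3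
    refine (sum_le_sum h1).trans ?_
    rw [sum_const, nsmul_eq_mul, mul_one_div, div_le_one hy0]
    have h4 : ((SF.PP y z N).filter (fun p => ¬ ¬ p ∣ D)).card ≤ D.primeFactors.card := by
      refine card_le_card fun p hp => ?_
      rw [mem_filter, not_not] at hp
      have h2 := hp.1
      unfold SF.PP at h2
      rw [mem_filter] at h2
      exact Nat.mem_primeFactors.2 ⟨h2.2.1, hp.2, by omega⟩
    have h5 := PD_card D hD
    have h6 : ((SF.PP y z N).filter (fun p => ¬ ¬ p ∣ D)).card ≤ y := by omega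
    exact_mod_cast h6
  have hdef : ∑ p ∈ PD y z N D, 1 / (p : ℝ) =
      ∑ p ∈ (SF.PP y z N).filter (fun p => ¬ p ∣ D), 1 / (p : ℝ) := rfl
  rw [hdef]
  linarith

end Pool.Agent.H.MP_c90f74_nt.UW
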