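import Pool.Agent.H.MP_c90f74_nt.UT.Mont
import Pool.Agent.H.MP_c90f74_nt.UT.RankB
import Pool.Agent.H.MP_c90f74_nt.UW.Defs

/-!
# UW/Cnt: the sieve bound for a set of exponents and a progression

PROOF. As `UV/Cnt`: for `p ∤ D` the residue of `j` modulo `p` is determined by the one of `D (j + 1)`, which avoids the `r` classes of `2^k - x`.
-/

set_option autoImplicit false

namespace Pool.Agent.H.MP_c90f74_nt.UW

open Finset

private theorem card_factor (Z : Finset ℕ) (f g : ℕ → ℕ)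
    (h : ∀ i ∈ Z, ∀ j ∈ Z, g i = g j → f i = f j) : (Z.image f).card ≤ (Z.image g).card := by
  classical
  refine Finset.card_le_card_of_injOn
    (fun v => if hv : ∃ i ∈ Z, f i = v then g hv.choose else 0) ?_ ?_
  · intro v hv
    rw [Finset.mem_coe, mem_image] at hv
    obtain ⟨i, hi, hiv⟩ := hv
    have he : ∃ i ∈ Z, f i = v := ⟨i, hi, hiv⟩
    show (if hv : ∃ i ∈ Z, f i = v then g hv.choose else 0) ∈ _
    rw [dif_pos he, Finset.mem_coe]
    exact mem_image_of_mem g he.choose_spec.1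
  · intro v hv w hw hvw
    rw [Finset.mem_coe, mem_image] at hv hw
    obtain ⟨i, hi, hiv⟩ := hv
    obtain ⟨j, hj, hjw⟩ := hw
    have he : ∃ i ∈ Z, f i = v := ⟨i, hi, hiv⟩
    have he' : ∃ i ∈ Z, f i = w := ⟨j, hj, hjw⟩
    have h1 : (if hv : ∃ i ∈ Z, f i = v then g hv.choose else 0) =
        (if hv : ∃ i ∈ Z, f i = w then g hv.choose else 0) := hvw
    rw [dif_pos he, dif_pos he'] at h1
    have h2 := h _ he.choose_spec.1 _ he'.choose_spec.1 h1
    rw [he.choose_spec.2, he'.choose_spec.2] at h2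
    exact h2

private theorem CntD_class {x N a y z r p D : ℕ} (hy : 2 ≤ y) (W K Z : Finset ℕ)
    (hW : W ⊆ Icc (a + 1) (a + N)) (hK : K ⊆ W)
    (hKr : K.card = r) (hp : p ∈ PD y z N D) (hpp : p.Prime)
    (hZ : ∀ j ∈ Z, K ⊆ KD W y z N D (x + D * (j + 1))) :
    (Z.image (fun n => n % p)).card + r ≤ p := by
  classical
  have hp0 : 0 < p := hpp.pos
  have hpD : ¬ p ∣ D := by
    unfold PD at hp
    exact (mem_filter.1 hp).2
  have hpP : p ∈ SF.PP y z N := by
    unfold PD at hp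
    exact (mem_filter.1 hp).1
  have hc : ∀ k : ℕ, (2 ^ k + (p - x % p)) % p + x ≡ 2 ^ k [MOD p] := by
    intro k
    have h1 : (2 ^ k + (p - x % p)) % p + x ≡
        2 ^ k + (p - x % p) + x % p [MOD p] :=
      Nat.ModEq.add (Nat.mod_modEq _ _) (Nat.mod_modEq _ _).symm
    have h2 : 2 ^ k + (p - x % p) + x % p = 2 ^ k + p := by
      have := Nat.mod_lt x hp0
      omega
    rw [h2] at h1
    refine h1.trans ?_
    show (2 ^ k + p) % p = 2 ^ k % p
    exact Nat.add_mod_right _ _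
  have hinj : Set.InjOn (fun k : ℕ => (2 ^ k + (p - x % p)) % p) (K : Set ℕ) := by
    intro k hk k' hk' he
    have he' : (2 ^ k + (p - x % p)) % p = (2 ^ k' + (p - x % p)) % p := he
    have h2 := (hc k).symm
    rw [he'] at h2
    have h1 : 2 ^ k ≡ 2 ^ k' [MOD p] := h2.trans (hc k')
    exact UV.ordw_inj hy hpP (hW (hK (Finset.mem_coe.1 hk))) (hW (hK (Finset.mem_coe.1 hk'))) h1
  have hcard : (K.image (fun k : ℕ => (2 ^ k + (p - x % p)) % p)).card = r := by
    rw [Finset.card_image_of_injOn hinj, hKr]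
  have hdis : Disjoint (Z.image (fun j => D * (j + 1) % p))
      (K.image (fun k : ℕ => (2 ^ k + (p - x % p)) % p)) := by
    rw [Finset.disjoint_left]
    intro a ha hb
    obtain ⟨j, hj, hja⟩ := Finset.mem_image.1 ha
    obtain ⟨k, hk, hka⟩ := Finset.mem_image.1 hb
    have h1 := hZ j hj hk
    unfold KD at h1
    rw [Finset.mem_filter] at h1
    obtain ⟨-, h2, h3⟩ := h1
    refine h3 p hp ?_
    have h4 : 2 ^ k ≡ x + D * (j + 1) [MOD p] := by
      have h5 := (hc k).symm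
      rw [hka, ← hja] at h5
      refine h5.trans ?_
      have h6 : D * (j + 1) % p + x ≡ D * (j + 1) + x [MOD p] :=
        Nat.ModEq.add_right _ (Nat.mod_modEq _ _)
      rw [add_comm x (D * (j + 1))]
      exact h6
    exact (Nat.modEq_iff_dvd' h2.le).1 h4
  have hfac : (Z.image (fun n => n % p)).card ≤ (Z.image (fun j => D * (j + 1) % p)).card := by
    refine card_factor Z _ _ fun i _ j _ hij => ?_
    have h1 : D * (i + 1) ≡ D * (j + 1) [MOD p] := hij
    have h2 : Nat.gcd p D = 1 := (Nat.Prime.coprime_iff_not_dvd hpp).2 hpD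
    have h3 : i + 1 ≡ j + 1 [MOD p] := Nat.ModEq.cancel_left_of_coprime h2 h1
    exact Nat.ModEq.add_right_cancel' 1 h3
  have hsub : Z.image (fun j => D * (j + 1) % p) ∪
      K.image (fun k : ℕ => (2 ^ k + (p - x % p)) % p) ⊆ range p := by
    intro a ha
    rcases Finset.mem_union.1 ha with h | h
    · obtain ⟨j, -, rfl⟩ := Finset.mem_image.1 h
      exact Finset.mem_range.2 (Nat.mod_lt _ hp0)
    · obtain ⟨k, -, rfl⟩ := Finset.mem_image.1 h
      exact Finset.mem_range.2 (Nat.mod_lt _ hp0)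
  have hfin : (Z.image (fun j => D * (j + 1) % p)).card + r ≤ p := by
    rw [← hcard, ← Finset.card_union_of_disjoint hdis]
    exact (Finset.card_le_card hsub).trans (le_of_eq (Finset.card_range p))
  omega

open Classical in
theorem cntd2 (x H N D a y z r : ℕ) (hy : N ^ 3 ≤ y) (hy8 : 8 ≤ y) (hz : 3 ≤ z) (hr : 1 ≤ r)
    (hH : 16 ≤ H) (hzH : 52 * (r : ℝ) * Real.log z ≤ Real.log H)
    (W K : Finset ℕ) (hW : W ⊆ Icc (a + 1) (a + N)) (hK : K ⊆ W) (hKr : K.card = r) :
    (((range H).filter (fun j => K ⊆ KD W y z N D (x + D * (j + 1)))).card : ℝ) ≤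
      16 * H * Real.exp (-(r * ∑ p ∈ PD y z N D, 1 / (p : ℝ))) := by
  generalize hZdef : (range H).filter (fun j => K ⊆ KD W y z N D (x + D * (j + 1))) = Z
  have hrN : r ≤ N := by
    rw [← hKr]
    refine (Finset.card_le_card (hK.trans hW)).trans ?_
    rw [Nat.card_Icc]
    omega
  have h2ry : 2 * r ≤ y := by
    rcases Nat.lt_or_ge r 4 with h | h
    · omega
    · have h1 : N * 4 ≤ N * (N * N) := Nat.mul_le_mul_left N (by nlinarith)
      have h2 : N ^ 3 = N * (N * N) := by ring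
      omega
  have hpP : ∀ p ∈ PD y z N D, p.Prime ∧ y < p ∧ p ≤ z := by
    intro p hp
    unfold PD SF.PP at hp
    rw [Finset.mem_filter, Finset.mem_filter, Finset.mem_Ioc] at hp
    exact ⟨hp.1.2.1, hp.1.1.1, hp.1.1.2⟩
  have hZr : Z ⊆ range H := by
    rw [← hZdef]
    exact Finset.filter_subset _ _
  have hZm : ∀ j ∈ Z, K ⊆ KD W y z N D (x + D * (j + 1)) := by
    intro j hj
    rw [← hZdef, Finset.mem_filter] at hj
    exact hj.2
  have h2r : ∀ p ∈ PD y z N D, 2 * r < p := by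
    intro p hp
    have := (hpP p hp).2.1
    omega
  have hQ2 : Nat.sqrt H ^ 2 ≤ H := Nat.sqrt_le' H
  have hQ3 : H < (Nat.sqrt H + 1) ^ 2 := Nat.lt_succ_sqrt' H
  have hQ4 : 4 ≤ Nat.sqrt H := Nat.le_sqrt.2 (by omega)
  have hQ5 : 13 * (r : ℝ) * Real.log z ≤ Real.log (Nat.sqrt H : ℕ) := by
    have h1 : H ≤ (2 * Nat.sqrt H) ^ 2 :=
      hQ3.le.trans (Nat.pow_le_pow_left (by omega) 2)
    have h2 : (H : ℝ) ≤ (2 * (Nat.sqrt H : ℕ) : ℝ) ^ 2 := by exact_mod_cast h1
    have hH0 : (0 : ℝ) < H := by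
      have h3 : (16 : ℝ) ≤ H := by exact_mod_cast hH
      linarith
    have hQ0 : (0 : ℝ) < (Nat.sqrt H : ℕ) := by
      have h3 : (4 : ℝ) ≤ (Nat.sqrt H : ℕ) := by exact_mod_cast hQ4
      linarith
    have h4 : Real.log H ≤ 2 * (Real.log 2 + Real.log (Nat.sqrt H : ℕ)) := by
      have h5 := Real.log_le_log hH0 h2
      rwa [Real.log_pow, Real.log_mul (by norm_num) hQ0.ne', Nat.cast_ofNat] at h5
    have h6 : 4 * Real.log 2 ≤ Real.log H := by
      have h7 : Real.log ((2 : ℝ) ^ 4) ≤ Real.log H :=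
        Real.log_le_log (by norm_num) (by norm_num; exact_mod_cast hH)
      rwa [Real.log_pow, Nat.cast_ofNat] at h7
    linarith
  have hM := UT.mont2 Z (PD y z N D) H (Nat.sqrt H) r hZr
    (fun p hp => ⟨(hpP p hp).1, by have := h2r p hp; omega,
      CntD_class (x := x) (D := D) (by omega) W K Z hW hK hKr hp (hpP p hp).1 hZm⟩)
    (by omega) hQ2
  have hR := UT.rank (PD y z N D) (Nat.sqrt H) z r
    (fun p hp => ⟨(hpP p hp).1, (h2r p hp).le, (hpP p hp).2.2⟩) hr hz (by omega) hQ5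
  have h1 : (Z.card : ℝ) * (Real.exp (r * ∑ p ∈ PD y z N D, 1 / (p : ℝ)) / 2) ≤ 8 * H :=
    (mul_le_mul_of_nonneg_left hR (Nat.cast_nonneg _)).trans hM
  rw [Real.exp_neg, ← div_eq_mul_inv, le_div_iff₀ (Real.exp_pos _)]
  linarith

end Pool.Agent.H.MP_c90f74_nt.UW
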