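import Pool.Agent.H.MP_c90f74_nt.UW.Cnt
import Pool.Agent.H.MP_c90f74_nt.UT.SumP

/-!
# UW/Cnt3: the choice of `z`

PROOF. As `UV/Cnt3`, with `sumPD1` (the constant 14 instead of 13).
-/

set_option autoImplicit false

namespace Pool.Agent.H.MP_c90f74_nt.UW

open Finset

private theorem cnt3_z (H r : ℕ) (hr : 1 ≤ r) (hH : 16 ≤ H) :
    ∃ z : ℕ, z ^ 52 ≤ H ∧ (z : ℝ) ≤ Real.exp (Real.log H / (52 * r)) ∧
      Real.exp (Real.log H / (52 * r)) < z + 1 := by
  have hr1 : (1 : ℝ) ≤ r := by exact_mod_cast hr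
  have hH1 : (16 : ℝ) ≤ H := by exact_mod_cast hH
  have hlH : 0 < Real.log H := Real.log_pos (by linarith)
  have h1 : ((⌊Real.exp (Real.log H / (52 * r))⌋₊ : ℕ) : ℝ) ≤ Real.exp (Real.log H / (52 * r)) :=
    Nat.floor_le (Real.exp_pos _).le
  refine ⟨⌊Real.exp (Real.log H / (52 * r))⌋₊, ?_, h1, Nat.lt_floor_add_one _⟩
  have h2 : ((⌊Real.exp (Real.log H / (52 * r))⌋₊ ^ 52 : ℕ) : ℝ) ≤ H := by
    push_cast
    calc ((⌊Real.exp (Real.log H / (52 * r))⌋₊ : ℕ) : ℝ) ^ 52 ≤
        Real.exp (Real.log H / (52 * r)) ^ 52 := pow_le_pow_left₀ (Nat.cast_nonneg _) h1 52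
      _ = Real.exp (52 * (Real.log H / (52 * r))) := by
        rw [← Real.exp_nat_mul]
        norm_num
      _ ≤ Real.exp (Real.log H) := by
        apply Real.exp_le_exp.2
        have h3 : 52 * (Real.log H / (52 * r)) = Real.log H / r := by
          field_simp
        rw [h3]
        exact div_le_self hlH.le hr1
      _ = H := Real.exp_log (by linarith)
  exact_mod_cast h2

private theorem cnt3_log (H r z : ℕ) (hr : 1 ≤ r) (hz : 8 ≤ z)
    (h : Real.exp (Real.log H / (52 * r)) < z + 1) :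
    Real.log H ≤ 70 * r * Real.log z := by
  have hr1 : (1 : ℝ) ≤ r := by exact_mod_cast hr
  have hz1 : (8 : ℝ) ≤ z := by exact_mod_cast hz
  have h1 : Real.log H / (52 * r) ≤ Real.log z + Real.log 2 := by
    rw [← Real.log_mul (by linarith) (by norm_num), Real.le_log_iff_exp_le (by linarith)]
    linarith
  have h2 : 3 * Real.log 2 ≤ Real.log z := by
    have h3 : Real.log ((2 : ℝ) ^ 3) ≤ Real.log z := Real.log_le_log (by norm_num) (by linarith)
    rw [Real.log_pow] at h3
    exact_mod_cast h3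
  have h4 : 0 < Real.log 2 := Real.log_pos (by norm_num)
  rw [div_le_iff₀ (by positivity)] at h1
  have h5 : (Real.log z + Real.log 2) * (52 * r) ≤ (4 / 3 * Real.log z) * (52 * r) :=
    mul_le_mul_of_nonneg_right (by linarith) (by positivity)
  have h6 : 0 ≤ r * Real.log z := mul_nonneg (by linarith) (by linarith)
  nlinarith

open Classical in
theorem cntd3 : ∃ C : ℝ, 1 ≤ C ∧ ∀ H N D y r : ℕ, 1 ≤ N → 1 ≤ D → N ^ 3 ≤ y → 8 ≤ y →
    Nat.log 2 D + 1 ≤ y → 1 ≤ r → 16 ≤ H →
    ∃ z : ℕ, z ^ 52 ≤ H ∧ ∀ (x a : ℕ) (W K : Finset ℕ), W ⊆ Icc (a + 1) (a + N) → K ⊆ W →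
      K.card = r →
      (((range H).filter (fun j => K ⊆ KD W y z N D (x + D * (j + 1)))).card : ℝ) ≤
        16 * H * (C * r * Real.log y / Real.log H) ^ r := by
  have he : (1 : ℝ) ≤ Real.exp 14 := Real.one_le_exp (by norm_num)
  refine ⟨70 * Real.exp 14, by linarith, fun H N D y r hN hD hNy hy hDy hr hH => ?_⟩
  have hr1 : (1 : ℝ) ≤ r := by exact_mod_cast hr
  have hH1 : (16 : ℝ) ≤ H := by exact_mod_cast hH
  have hy1 : (8 : ℝ) ≤ y := by exact_mod_cast hy
  have hlH : 0 < Real.log H := Real.log_pos (by linarith)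
  have hly : 0 < Real.log y := Real.log_pos (by linarith)
  obtain ⟨z, hz1, hz2, hz3⟩ := cnt3_z H r hr hH
  refine ⟨z, hz1, fun x a W K hW hK hKr => ?_⟩
  rcases lt_or_ge z y with hzy | hzy
  · have h1 : (((range H).filter (fun j => K ⊆ KD W y z N D (x + D * (j + 1)))).card : ℝ) ≤ H := by
      have h2 := Finset.card_filter_le (range H) (fun j => K ⊆ KD W y z N D (x + D * (j + 1)))
      rw [Finset.card_range] at h2
      exact_mod_cast h2
    have h3 : (z : ℝ) + 1 ≤ y := by exact_mod_cast hzy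
    have h4 : Real.log H / (52 * r) ≤ Real.log y := by
      rw [Real.le_log_iff_exp_le (by linarith)]
      linarith
    rw [div_le_iff₀ (by positivity)] at h4
    have h5 : 1 ≤ 70 * Real.exp 14 * r * Real.log y / Real.log H := by
      rw [le_div_iff₀ hlH]
      have h6 : 0 ≤ (r : ℝ) * Real.log y := mul_nonneg (by linarith) hly.le
      have h7 : 70 * 1 * (r * Real.log y) ≤ 70 * Real.exp 14 * (r * Real.log y) :=
        mul_le_mul_of_nonneg_right (by linarith) h6
      nlinarith
    have h8 : 1 ≤ (70 * Real.exp 14 * r * Real.log y / Real.log H) ^ r := one_le_pow₀ h5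
    have h9 : (16 * H : ℝ) * 1 ≤ 16 * H * (70 * Real.exp 14 * r * Real.log y / Real.log H) ^ r :=
      mul_le_mul_of_nonneg_left h8 (by linarith)
    linarith
  · have hz8 : 8 ≤ z := hy.trans hzy
    have hz8' : (8 : ℝ) ≤ z := by exact_mod_cast hz8
    have hlz : 0 < Real.log z := Real.log_pos (by linarith)
    have h1 : Real.log z ≤ Real.log H / (52 * r) := by
      rw [Real.log_le_iff_le_exp (by linarith)]
      exact hz2
    have h2 : 52 * (r : ℝ) * Real.log z ≤ Real.log H := by
      rw [le_div_iff₀ (by positivity)] at h1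
      linarith
    have h3 := cntd2 x H N D a y z r hNy hy (by omega) hr hH h2 W K hW hK hKr
    have h4a := UT.sumPP y z N hN hNy (by omega) hzy
    have h4 := sumPD1 y z N D hD hDy
    have h5 := cnt3_log H r z hr hz8 hz3
    have h6 : Real.exp (-(Real.log (Real.log z) - Real.log (Real.log y) - 14)) =
        Real.exp 14 * Real.log y / Real.log z := by
      have h7 : -(Real.log (Real.log z) - Real.log (Real.log y) - 14) =
          14 + Real.log (Real.log y) - Real.log (Real.log z) := by ring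
      rw [h7, Real.exp_sub, Real.exp_add, Real.exp_log hly, Real.exp_log hlz]
    have h8 : Real.exp (-(r * ∑ p ∈ PD y z N D, 1 / (p : ℝ))) ≤
        (Real.exp 14 * Real.log y / Real.log z) ^ r := by
      rw [← h6, ← Real.exp_nat_mul]
      apply Real.exp_le_exp.2
      have h4b : Real.log (Real.log z) - Real.log (Real.log y) - 14 ≤
          ∑ p ∈ PD y z N D, 1 / (p : ℝ) := by linarith
      have h9 := mul_le_mul_of_nonneg_left h4b (by linarith : (0 : ℝ) ≤ r)
      linarith
    have h10 : Real.exp 14 * Real.log y / Real.log z ≤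
        70 * Real.exp 14 * r * Real.log y / Real.log H := by
      rw [div_le_div_iff₀ hlz hlH]
      have h11 : 0 ≤ Real.exp 14 * Real.log y := by positivity
      have h12 := mul_le_mul_of_nonneg_left h5 h11
      linarith
    have h13 : (Real.exp 14 * Real.log y / Real.log z) ^ r ≤
        (70 * Real.exp 14 * r * Real.log y / Real.log H) ^ r :=
      pow_le_pow_left₀ (by positivity) h10 r
    exact h3.trans (mul_le_mul_of_nonneg_left (h8.trans h13) (by linarith))

end Pool.Agent.H.MP_c90f74_nt.UW
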