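import Pool.Agent.H.MP_c90f74_nt.UW.Tail

/-!
# UW/Main: the theorem

PROOF. As `UV/Main`.
-/

set_option autoImplicit false

namespace Pool.Agent.H.MP_c90f74_nt.UW

open Finset

private theorem Main_card (H : ℕ) (P : ℕ → Prop) [DecidablePred P] :
    {j : ℕ | 1 ≤ j ∧ j ≤ H ∧ P j}.ncard = ((range H).filter (fun j => P (j + 1))).card := by
  classical
  have h1 : {j : ℕ | 1 ≤ j ∧ j ≤ H ∧ P j} =
      (((range H).filter (fun j => P (j + 1))).image (fun j => j + 1) : Finset ℕ) := by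
    ext n
    rw [Finset.mem_coe, mem_image]
    constructor
    · rintro ⟨h2, h3, h4⟩
      refine ⟨n - 1, mem_filter.2 ⟨mem_range.2 (by omega), ?_⟩, by omega⟩
      rw [show n - 1 + 1 = n by omega]
      exact h4
    · rintro ⟨j, hj, rfl⟩
      obtain ⟨h2, h3⟩ := mem_filter.1 hj
      rw [mem_range] at h2
      exact ⟨by omega, by omega, h3⟩
  rw [h1, Set.ncard_coe_finset, card_image_of_injective _ fun a b hab => by
    have h2 : a + 1 = b + 1 := hab
    omega]

theorem main : ∃ C c : ℝ, 0 < c ∧ ∀ x H D : ℕ, 64 ≤ x → 1 ≤ H → 1 ≤ D → D * H ≤ x →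
    ∀ (a N : ℕ) (W : Finset ℕ), W ⊆ Finset.Icc (a + 1) (a + N) → ∀ T : ℝ,
      ({j : ℕ | 1 ≤ j ∧ j ≤ H ∧ T ≤ ((W.filter (fun k =>
        2 ^ k < x + D * j ∧ (x + D * j - 2 ^ k).Prime)).card : ℝ)}.ncard : ℝ) ≤
        C * H * (1 + c * Real.log H / (W.card * Real.log (N + Nat.log 2 D + 1))) ^ (-T) := by
  classical
  obtain ⟨c, hc, hc32, htail⟩ := tailwd
  refine ⟨50, c, hc, ?_⟩
  intro x H D hx hH hD hDH a N W hW T
  change ({j : ℕ | 1 ≤ j ∧ j ≤ H ∧ T ≤ ((UV.RW W (x + D * j)).card : ℝ)}.ncard : ℝ) ≤ _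
  rw [Main_card H (fun j => T ≤ ((UV.RW W (x + D * j)).card : ℝ)), mul_div_assoc, ← Nat.cast_add]
  have hH1 : (1 : ℝ) ≤ (H : ℝ) := by exact_mod_cast hH
  have hlH0 : 0 ≤ Real.log H := Real.log_nonneg hH1
  have hl0 : 0 ≤ Real.log (((N + Nat.log 2 D : ℕ) : ℝ) + 1) := Real.log_nonneg (by
    have : (0 : ℝ) ≤ ((N + Nat.log 2 D : ℕ) : ℝ) := Nat.cast_nonneg _
    linarith)
  have hu0 : 0 ≤ c * (Real.log H / (W.card * Real.log (((N + Nat.log 2 D : ℕ) : ℝ) + 1))) := by positivity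
  have htriv : (((range H).filter (fun j => T ≤ ((UV.RW W (x + D * (j + 1))).card : ℝ))).card : ℝ) ≤ H := by
    have h2 := card_filter_le (range H) (fun j => T ≤ ((UV.RW W (x + D * (j + 1))).card : ℝ))
    rw [card_range] at h2
    exact_mod_cast h2
  obtain ⟨b, hb⟩ : ∃ b, b = 1 + c * (Real.log H / (W.card * Real.log (((N + Nat.log 2 D : ℕ) : ℝ) + 1))) := ⟨_, rfl⟩
  rw [← hb]
  have hb1 : 1 ≤ b := by linarith
  rcases le_or_gt T 0 with hT | hT
  · have h1 : 1 ≤ b ^ (-T) := Real.one_le_rpow hb1 (by linarith)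
    nlinarith
  have hceil : T ≤ ((⌈T⌉₊ : ℕ) : ℝ) := Nat.le_ceil T
  have ht1 : 1 ≤ ⌈T⌉₊ := Nat.one_le_ceil_iff.2 hT
  obtain ⟨t, ht⟩ : ∃ t, t = ⌈T⌉₊ := ⟨_, rfl⟩
  rw [← ht] at hceil ht1
  have hpow : (b ^ t)⁻¹ ≤ b ^ (-T) := by
    rw [← Real.rpow_natCast, ← Real.rpow_neg (by linarith)]
    exact Real.rpow_le_rpow_of_exponent_le hb1 (by linarith)
  have hbt : 0 < b ^ t := by positivity
  have hset : (range H).filter (fun j => T ≤ ((UV.RW W (x + D * (j + 1))).card : ℝ)) =
      (range H).filter (fun j => t ≤ (UV.RW W (x + D * (j + 1))).card) := by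
    refine filter_congr fun j _ => ?_
    rw [ht]
    exact Nat.ceil_le.symm
  rcases Nat.lt_or_ge W.card t with htM | htM
  · have h1 : (range H).filter (fun j => t ≤ (UV.RW W (x + D * (j + 1))).card) = ∅ := by
      refine filter_eq_empty_iff.2 fun j _ h2 => ?_
      have h3 : (UV.RW W (x + D * (j + 1))).card ≤ W.card := card_filter_le _ _
      omega
    rw [hset, h1, card_empty, Nat.cast_zero]
    have h2 : 0 ≤ b ^ (-T) := Real.rpow_nonneg (by linarith) _
    positivity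
  have hgoal : (((range H).filter (fun j => t ≤ (UV.RW W (x + D * (j + 1))).card)).card : ℝ) ≤
      50 * H * (b ^ t)⁻¹ := by
    rcases Nat.lt_or_ge H 16 with h16 | h16
    · rw [hset] at htriv
      have hN : 1 ≤ N := by
        rcases Nat.eq_zero_or_pos N with h0 | h0
        · rw [h0, add_zero, Icc_eq_empty (by omega), subset_empty] at hW
          rw [hW, card_empty] at htM
          omega
        · exact h0
      have hN1 : (1 : ℝ) ≤ ((N + Nat.log 2 D : ℕ) : ℝ) := by
        have : 1 ≤ N + Nat.log 2 D := by omega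
        exact_mod_cast this
      have hl2 : Real.log 2 ≤ Real.log (((N + Nat.log 2 D : ℕ) : ℝ) + 1) := Real.log_le_log (by norm_num) (by linarith)
      have hlp : 0 < Real.log 2 := Real.log_pos (by norm_num)
      have hH16 : (H : ℝ) ≤ 2 ^ 4 := by
        have : H ≤ 2 ^ 4 := by omega
        exact_mod_cast this
      have hlH : Real.log H ≤ 4 * Real.log 2 := by
        have h1 := Real.log_le_log (by linarith) hH16
        rw [Real.log_pow] at h1
        exact_mod_cast h1
      have h1 := UV.base_le c (Real.log (((N + Nat.log 2 D : ℕ) : ℝ) + 1)) (Real.log H) W.card t hc.le (by linarith) hlH0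
        ht1 htM
      rw [← hb] at h1
      have h2 : c * Real.log H / Real.log (((N + Nat.log 2 D : ℕ) : ℝ) + 1) ≤ 1 := by
        rw [div_le_one (by linarith)]
        have h3 : c * Real.log H ≤ 1 / 32 * (4 * Real.log (((N + Nat.log 2 D : ℕ) : ℝ) + 1)) :=
          mul_le_mul hc32 (by linarith) hlH0 (by norm_num)
        linarith
      have h3 : b ^ t ≤ 50 := by
        refine h1.trans ((Real.exp_le_exp.2 h2).trans ?_)
        have := Real.exp_one_lt_d9
        linarith
      have h4 : 1 ≤ 50 * (b ^ t)⁻¹ := by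
        rw [← div_eq_mul_inv, le_div_iff₀ hbt]
        linarith
      nlinarith
    · have h1 := htail x H D a N t W hx h16 hD hDH hW ht1 htM
      rw [← hb] at h1
      have h2 : 0 ≤ (H : ℝ) * (b ^ t)⁻¹ := by positivity
      nlinarith
  rw [hset]
  exact hgoal.trans (mul_le_mul_of_nonneg_left hpow (by positivity))

end Pool.Agent.H.MP_c90f74_nt.UW
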