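import Pool.Agent.H.MP_c90f74_nt.UW.Cnt3
import Pool.Agent.H.MP_c90f74_nt.UV.Avg

/-!
# UW/TailR: averaging over the subsets of `W`

PROOF. As `UV/TailR`, with `y = (N + log_2 D + 1)^3`, `badd`, `goodd`.
-/

set_option autoImplicit false

namespace Pool.Agent.H.MP_c90f74_nt.UW

open Finset

private theorem TailR_z {z H x : ℕ} (h1 : z ^ 52 ≤ H) (h2 : H ≤ x) (h3 : 64 ≤ x) :
    2 * z ≤ x := by
  rcases Nat.lt_or_ge z 2 with h | h
  · omega
  · have h4 : z ^ 2 ≤ z ^ 52 := Nat.pow_le_pow_right (by omega) (by norm_num)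
    nlinarith

open Classical in
theorem tailrd {C : ℝ} (hC : 1 ≤ C)
    (hcnt : ∀ H N D y r : ℕ, 1 ≤ N → 1 ≤ D → N ^ 3 ≤ y → 8 ≤ y →
      Nat.log 2 D + 1 ≤ y → 1 ≤ r → 16 ≤ H →
      ∃ z : ℕ, z ^ 52 ≤ H ∧ ∀ (x a : ℕ) (W K : Finset ℕ), W ⊆ Icc (a + 1) (a + N) → K ⊆ W →
        K.card = r →
        (((range H).filter (fun j => K ⊆ KD W y z N D (x + D * (j + 1)))).card : ℝ) ≤
          16 * H * (C * r * Real.log y / Real.log H) ^ r)
    (x H D a N t r : ℕ) (W : Finset ℕ) (hx : 64 ≤ x) (hH : 16 ≤ H) (hD : 1 ≤ D)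
    (hDH : D * H ≤ x)
    (hW : W ⊆ Icc (a + 1) (a + N)) (hN : 1 ≤ N) (hr : 1 ≤ r) (hrt : r ≤ t) :
    (((range H).filter (fun j => t ≤ (UV.RW W (x + D * (j + 1))).card)).card : ℝ) *
        ((t.choose r : ℕ) : ℝ) ≤
      2 * Real.sqrt H * ((t.choose r : ℕ) : ℝ) +
        16 * H * (((W.card.choose r : ℕ) : ℝ) *
          (C * r * (3 * Real.log (((N + Nat.log 2 D : ℕ) : ℝ) + 1)) / Real.log H) ^ r) := by
  have hHx : H ≤ x := (Nat.le_mul_of_pos_left H hD).trans hDH
  obtain ⟨y, hy⟩ : ∃ y, y = (N + Nat.log 2 D + 1) ^ 3 := ⟨_, rfl⟩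
  have hy8 : 8 ≤ y := by
    have h2 : 2 ^ 3 ≤ (N + Nat.log 2 D + 1) ^ 3 := Nat.pow_le_pow_left (by omega) 3
    omega
  have hyN : N ^ 3 ≤ y := by
    rw [hy]
    exact Nat.pow_le_pow_left (by omega) 3
  have hyD : Nat.log 2 D + 1 ≤ y := by
    have h2 : N + Nat.log 2 D + 1 ≤ (N + Nat.log 2 D + 1) ^ 3 := Nat.le_self_pow (by norm_num) _
    omega
  obtain ⟨z, hz, hzK⟩ := hcnt H N D y r hN hD hyN hy8 hyD hr hH
  have h2z := TailR_z hz hHx hx
  have hH1 : (16 : ℝ) ≤ H := by exact_mod_cast hH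
  have hlH : 0 < Real.log H := Real.log_pos (by linarith)
  have hly : Real.log y ≤ 3 * Real.log (((N + Nat.log 2 D : ℕ) : ℝ) + 1) := by
    have h2 : (y : ℝ) ≤ (((N + Nat.log 2 D : ℕ) : ℝ) + 1) ^ 3 := by
      rw [hy]
      exact_mod_cast le_rfl
    have h3 : (0 : ℝ) < y := by
      have : 0 < y := by omega
      exact_mod_cast this
    have h4 := Real.log_le_log h3 h2
    rw [Real.log_pow] at h4
    exact_mod_cast h4
  have hly0 : 0 ≤ Real.log y := Real.log_nonneg (by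
    have : 1 ≤ y := by omega
    exact_mod_cast this)
  obtain ⟨F, hF⟩ : ∃ F, F = (range H).filter (fun j => t ≤ (UV.RW W (x + D * (j + 1))).card) := ⟨_, rfl⟩
  rw [← hF]
  obtain ⟨bad, hbad⟩ : ∃ b, b = (range H).filter
      (fun j => ∃ k : ℕ, 2 ^ k < x + D * (j + 1) ∧ x + D * (j + 1) - 2 ^ k ≤ z) := ⟨_, rfl⟩
  have hb1 : bad.card ≤ 2 * z := by
    rw [hbad]
    exact badd x H D z (by omega) hD hDH h2z
  have hb2 : F.card ≤ bad.card + (F \ bad).card := by
    have h1 : F ⊆ bad ∪ (F \ bad) := by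
      intro j hj
      rw [mem_union, mem_sdiff]
      by_cases h2 : j ∈ bad
      · exact Or.inl h2
      · exact Or.inr ⟨hj, h2⟩
    exact (card_le_card h1).trans (card_union_le _ _)
  have havg := UV.avgw (F \ bad) W r t (fun j => KD W y z N D (x + D * (j + 1))) (by
      intro j hj
      rw [mem_sdiff, hF, mem_filter, hbad, mem_filter] at hj
      obtain ⟨⟨h1, h2⟩, h3⟩ := hj
      refine ⟨?_, ?_⟩
      · unfold KD
        exact filter_subset _ _
      · have h4 : ¬ ∃ k : ℕ, 2 ^ k < x + D * (j + 1) ∧ x + D * (j + 1) - 2 ^ k ≤ z := fun h => h3 ⟨h1, h⟩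
        exact h2.trans (card_le_card (goodd W y z N D (x + D * (j + 1)) h4)))
    (16 * H * (C * r * (3 * Real.log (((N + Nat.log 2 D : ℕ) : ℝ) + 1)) / Real.log H) ^ r) (by
      intro K hK hKr
      have h1 := hzK x a W K hW hK hKr
      have h2 : (((F \ bad).filter (fun j => K ⊆ KD W y z N D (x + D * (j + 1)))).card : ℝ) ≤
          (((range H).filter (fun j => K ⊆ KD W y z N D (x + D * (j + 1)))).card : ℝ) := by
        have h3 : ((F \ bad).filter (fun j => K ⊆ KD W y z N D (x + D * (j + 1)))).card ≤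
            ((range H).filter (fun j => K ⊆ KD W y z N D (x + D * (j + 1)))).card := by
          refine card_le_card fun j hj => ?_
          rw [mem_filter, mem_sdiff, hF, mem_filter] at hj
          rw [mem_filter]
          exact ⟨hj.1.1.1, hj.2⟩
        exact_mod_cast h3
      refine (le_trans ?_ (h2.trans h1)).trans ?_
      · exact le_of_eq (by congr!)
      · refine mul_le_mul_of_nonneg_left (pow_le_pow_left₀ (by positivity) ?_ r) (by positivity)
        refine div_le_div_of_nonneg_right ?_ hlH.le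
        exact mul_le_mul_of_nonneg_left hly (by positivity))
  have hzs : (z : ℝ) ≤ Real.sqrt H := by
    apply Real.le_sqrt_of_sq_le
    have h1 : z ^ 2 ≤ H := by
      rcases Nat.eq_zero_or_pos z with h0 | h0
      · rw [h0]; omega
      · exact (Nat.pow_le_pow_right h0 (by norm_num)).trans hz
    exact_mod_cast h1
  have hc0 : (0 : ℝ) ≤ ((t.choose r : ℕ) : ℝ) := Nat.cast_nonneg _
  have hF1 : (F.card : ℝ) ≤ 2 * Real.sqrt H + ((F \ bad).card : ℝ) := by
    have h1 : (F.card : ℝ) ≤ (bad.card : ℝ) + ((F \ bad).card : ℝ) := by exact_mod_cast hb2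
    have h2 : (bad.card : ℝ) ≤ 2 * z := by exact_mod_cast hb1
    linarith
  have hF2 := mul_le_mul_of_nonneg_right hF1 hc0
  rw [add_mul] at hF2
  refine hF2.trans ?_
  have h9 : ((W.card.choose r : ℕ) : ℝ) *
      (16 * H * (C * r * (3 * Real.log (((N + Nat.log 2 D : ℕ) : ℝ) + 1)) / Real.log H) ^ r) =
      16 * H * (((W.card.choose r : ℕ) : ℝ) *
          (C * r * (3 * Real.log (((N + Nat.log 2 D : ℕ) : ℝ) + 1)) / Real.log H) ^ r) := by ring
  rw [h9] at havg
  linarith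

end Pool.Agent.H.MP_c90f74_nt.UW
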